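import Pool.Agent.H458.AR.Coh
import Pool.Graph.R_pool_sql_team_seeded_63374d34.N187.PP.GN
import Pool.Graph.R_pool_sql_team_seeded_63374d34.N630.PP.GP

/-!
# AR (helper458), part CB: cohomologous cocycles and square classes
-/

set_option autoImplicit false
set_option linter.all false

open IsDedekindDomain NumberField Polynomial
open scoped Classical

namespace Pool.Agent.H458.AR

open Pool.Agent.N922.PQ
open Pool.Agent.N874.PP (sW IsBeta sg Rt rr S_GP3 S_GP4)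
open Pool.Agent.TH115.GD (Pt act rs IsCoc LocTriv Comp Sep)
open Pool.Agent.N187.PP

namespace CBAux

variable {K : Type} [Field K] {A B : K}

/-- the sum of two cocycles -/
theorem coc_add {f f' : (Sep K ≃ₐ[K] Sep K) → Pt (sW A B) (Sep K)} (hf : IsCoc (sW A B) f)
    (hf' : IsCoc (sW A B) f') : IsCoc (sW A B) (fun σ => f σ + f' σ) := by
  refine ⟨?_, fun σ τ => ?_⟩
  · exact IsLocallyConstant.comp (hf.lc.prodMk hf'.lc) (fun p => p.1 + p.2)
  · rw [hf.mul, hf'.mul, map_add]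
    abel

theorem sub_eq {S T : Pt (sW A B) (Sep K)} (hT : (2 : ℕ) • T = 0) : S - T = S + T := by
  have : T + T = 0 := by rw [← two_nsmul]; exact hT
  rw [sub_eq_add_neg, ← eq_neg_of_add_eq_zero_left this]

theorem cb_gen (h3 : S_GP3) (h4 : S_GP4) (h6 : (6 : K) ≠ 0) (hd : 4 * A ^ 3 + 27 * B ^ 2 ≠ 0)
    (hirr : Irreducible (X ^ 3 + C A * X + C B : K[X]))
    {f f' : (Sep K ≃ₐ[K] Sep K) → Pt (sW A B) (Sep K)} (hf : IsCoc (sW A B) f)
    (hf' : IsCoc (sW A B) f') (hf2 : ∀ σ, (2 : ℕ) • f σ = 0) (hf2' : ∀ σ, (2 : ℕ) • f' σ = 0)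
    {β β' : Sep K → Sep K} (hβ : IsBeta A B f β) (hβ' : IsBeta A B f' β') {h h' : K[X]}
    (hh : ∀ t : Sep K, Rt A B t → aeval t h = β t ^ 2)
    (hh' : ∀ t : Sep K, Rt A B t → aeval t h' = β' t ^ 2) :
    (∃ T : Pt (sW A B) (Sep K), (2 : ℕ) • T = 0 ∧ ∀ σ, f σ - f' σ = act (sW A B) (rs K σ) T - T) ↔
      ∃ g : K[X], X ^ 3 + C A * X + C B ∣ h * h' - g ^ 2 := by
  obtain ⟨t₁, t₂, t₃, n1, n2, n3, r1, r2, r3, -⟩ := exists_roots h6 hirr
  obtain ⟨G1, G2, G3, G4⟩ := h3 K (Sep K) A B h6 hd t₁ t₂ t₃ r1 r2 r3 n1 n2 n3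
  have hsub : ∀ σ, f σ - f' σ = f σ + f' σ := fun σ => sub_eq (hf2' σ)
  constructor
  · rintro ⟨T, hT, hcob⟩
    -- the function `γ`
    have hγ : ∀ (σ : Sep K ≃ₐ[K] Sep K) (t : Sep K), Rt A B t →
        σ (β t * β' t * sg T t) = β (σ t) * β' (σ t) * sg T (σ t) := by
      intro σ t ht
      have ht' : Rt A B (σ t) := rt_map' σ ht
      have hσT : (2 : ℕ) • act (sW A B) (rs K σ) T = 0 := two_act' _ hT
      have e1 := G2 (f σ) (f' σ) (σ t) (hf2 σ) (hf2' σ) ht'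
      have e2 : f σ + f' σ = act (sW A B) (rs K σ) T + T := by
        rw [← hsub, hcob]
        exact sub_eq hT
      rw [e2, G2 _ _ _ hσT hT ht', sg_act' h4] at e1
      rw [map_mul, map_mul, (hβ t ht).2 σ, (hβ' t ht).2 σ, fix_sg]
      have q1 := sg_mul_self T t
      linear_combination (-(β (σ t) * β' (σ t) * sg T t)) * e1 +
        (β (σ t) * β' (σ t) * sg T (σ t)) * q1
    obtain ⟨g, hg⟩ := exists_poly (K := K) (t := t₁) (x := β t₁ * β' t₁ * sg T t₁)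
      (fun σ hσ => by rw [hγ σ t₁ r1, hσ])
    refine ⟨g, ?_⟩
    rw [← minpoly_eq hirr r1]
    refine minpoly.dvd K t₁ ?_
    rw [map_sub, map_mul, map_pow, hg, hh t₁ r1, hh' t₁ r1]
    have q1 := sg_mul_self T t₁
    linear_combination (-(β t₁ ^ 2 * β' t₁ ^ 2)) * q1
  · rintro ⟨g, hg⟩
    have hcoc := coc_add hf hf'
    have h2 : ∀ σ, (2 : ℕ) • (f σ + f' σ) = 0 := fun σ => by
      rw [nsmul_add, hf2, hf2', add_zero]
    have hβ2 : IsBeta A B (fun σ => f σ + f' σ) (fun t => β t * β' t) := by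
      intro t ht
      refine ⟨mul_ne_zero (hβ t ht).1 (hβ' t ht).1, fun σ => ?_⟩
      rw [map_mul, (hβ t ht).2 σ, (hβ' t ht).2 σ, G2 _ _ _ (hf2 σ) (hf2' σ) (rt_map' σ ht)]
      ring
    haveI : Fact (Irreducible (X ^ 3 + C A * X + C B : K[X])) := ⟨hirr⟩
    have hF0 : (X ^ 3 + C A * X + C B : K[X]) ≠ 0 := hirr.ne_zero
    have hroot : Rt A B (AdjoinRoot.root (X ^ 3 + C A * X + C B : K[X])) := by
      rw [rt_iff, AdjoinRoot.aeval_eq, AdjoinRoot.mk_self]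
    have hfr : Module.finrank K (AdjoinRoot (X ^ 3 + C A * X + C B : K[X])) = 3 := by
      rw [(AdjoinRoot.powerBasis hF0).finrank, AdjoinRoot.powerBasis_dim, F_natDegree]
    have hsq : IsSquare (aeval (AdjoinRoot.root (X ^ 3 + C A * X + C B : K[X])) (h * h')) := by
      refine ⟨AdjoinRoot.mk _ g, ?_⟩
      rw [AdjoinRoot.aeval_eq, ← map_mul, ← pow_two, AdjoinRoot.mk_eq_mk]
      exact hg
    obtain ⟨T, hT, hT'⟩ := gt h3 h4 K A B h6 hd hirr _ hcoc h2 _ (h * h') hβ2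
      (fun t ht => by rw [map_mul, hh t ht, hh' t ht]; ring) _ _ hroot hfr hsq
    exact ⟨T, hT, fun σ => by rw [hsub]; exact hT' σ⟩

end CBAux

/-- **CB.** -/
theorem cb : S_CB := by
  rintro A B hd hirr f f' hf hf' hf2 hf2' h h' ⟨β, hβ, hh⟩ ⟨β', hβ', hh'⟩
  exact CBAux.cb_gen Pool.Agent.N630.PP.gp3 Pool.Agent.N630.PP.gp4 (by norm_num) hd hirr hf hf'
    hf2 hf2' hβ hβ' hh hh'

end Pool.Agent.H458.AR
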