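import Pool.Agent.H458.AR.Fld

/-!
# AR (helper458), part NSG: the norm is a square up to sign
-/

set_option autoImplicit false
set_option linter.all false

open IsDedekindDomain NumberField Polynomial
open scoped Classical

namespace Pool.Agent.H458.AR

open Pool.Agent.N922.PQ
open Pool.Agent.N874.PP (Ev Sq1 U0)

namespace NSGAux

section ring

variable {L O : Type} [Field L] [NumberField L] [CommRing O] [IsDedekindDomain O]
  [Algebra O L] [IsFractionRing O L] [IsIntegralClosure O ℤ L]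

/-- even valuations -/
theorem ev_even (𝔓 : HeightOneSpectrum O) {x w : L} {z : O} (hz : z ≠ 0)
    (hxz : x * w ^ 2 = algebraMap O L z) (h : Ev 𝔓 x) :
    Even ((Associates.mk 𝔓.asIdeal).count (Associates.mk (Ideal.span {z})).factors) := by
  obtain ⟨y, hy⟩ := h
  have h1 : 𝔓.valuation L (algebraMap O L z) = 𝔓.valuation L (y * w) ^ 2 := by
    rw [← hxz, map_mul, hy, map_pow, map_mul, mul_pow]
  rw [HeightOneSpectrum.valuation_of_algebraMap, HeightOneSpectrum.intValuation_if_neg 𝔓 hz] at h1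
  have h0 : 𝔓.valuation L (y * w) ≠ 0 := by
    intro h0
    rw [h0, zero_pow two_ne_zero] at h1
    exact WithZero.exp_ne_zero h1
  obtain ⟨k, hk⟩ : ∃ k : ℤ, 𝔓.valuation L (y * w) = WithZero.exp k :=
    ⟨_, (WithZero.exp_log h0).symm⟩
  rw [hk, ← WithZero.exp_nsmul, WithZero.exp_inj, nsmul_eq_mul] at h1
  rw [← Int.even_coe_nat, ← even_neg, h1]
  exact ⟨k, by push_cast; ring⟩

/-- the norm of an integral element -/
theorem norm_int [Module.Free ℤ O] [Module.Finite ℤ O] (z : O) :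
    Algebra.norm ℚ (algebraMap O L z) = (Algebra.norm ℤ z : ℚ) := by
  haveI := IsIntegralClosure.isLocalization ℤ ℚ L O
  have h := Algebra.norm_localization (R := ℤ) (S := O) (Rₘ := ℚ) (Sₘ := L) (nonZeroDivisors ℤ) z
  rw [h]
  simp

/-- a prime of even degree -/
theorem card_sq {a b : ℤ} {θ : L} (hc : IsCub a b θ) {Q : ℤ} (hQ : Prime Q) (hQb : Q ∣ b)
    (hns : ∀ z : ℤ, ¬ Q ∣ z ^ 2 + a) {𝔮 : HeightOneSpectrum O} (hov : Ov Q 𝔮)
    (hv : 𝔮.valuation L θ = 1) [Module.Free ℤ O] [Module.Finite ℤ O] :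
    IsSquare (Ideal.absNorm 𝔮.asIdeal) := by
  have hint : IsIntegral ℤ θ := by
    refine ⟨X ^ 3 + C a * X + C b, by monicity!, ?_⟩
    simp only [eval₂_add, eval₂_mul, eval₂_pow, eval₂_X, eval₂_C]
    exact hc.root
  obtain ⟨t, ht⟩ := IsIntegralClosure.isIntegral_iff (A := O).mp hint
  have htr : t ^ 3 + (a : O) * t + (b : O) = 0 := by
    apply IsFractionRing.injective O L
    simp only [map_add, map_mul, map_pow, ht, map_zero, map_intCast]
    exact hc.root
  have htn : t ∉ 𝔮.asIdeal := by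
    rw [← HeightOneSpectrum.valuation_eq_one_iff_notMem (K := L), ht]
    exact hv
  haveI hmax : 𝔮.asIdeal.IsMaximal := 𝔮.isMaximal
  letI : Field (O ⧸ 𝔮.asIdeal) := Ideal.Quotient.field _
  haveI : Finite (O ⧸ 𝔮.asIdeal) := Ideal.finiteQuotientOfFreeOfNeBot _ 𝔮.ne_bot
  have hp : Q.natAbs.Prime := Int.prime_iff_natAbs_prime.1 hQ
  haveI : Fact Q.natAbs.Prime := ⟨hp⟩
  have hQ0 : ((Q : ℤ) : O ⧸ 𝔮.asIdeal) = 0 := by
    have h1 := Ideal.Quotient.eq_zero_iff_mem.2 hov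
    rw [map_intCast] at h1
    exact h1
  have hdvd : ∀ c : ℤ, Q ∣ c → ((c : ℤ) : O ⧸ 𝔮.asIdeal) = 0 := by
    rintro c ⟨d, rfl⟩
    rw [Int.cast_mul, hQ0, zero_mul]
  haveI : CharP (O ⧸ 𝔮.asIdeal) Q.natAbs := by
    have h1 : ((Q.natAbs : ℕ) : O ⧸ 𝔮.asIdeal) = 0 := by
      have := hdvd (Q.natAbs : ℤ) (Int.dvd_natAbs_self)
      simpa using this
    exact (CharP.charP_iff_prime_eq_zero hp).2 h1
  letI : Algebra (ZMod Q.natAbs) (O ⧸ 𝔮.asIdeal) := ZMod.algebra _ _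
  obtain ⟨u, hu⟩ : ∃ u : O ⧸ 𝔮.asIdeal, u = Ideal.Quotient.mk 𝔮.asIdeal t := ⟨_, rfl⟩
  have hu0 : u ≠ 0 := by
    rw [hu]
    exact fun h0 => htn (Ideal.Quotient.eq_zero_iff_mem.1 h0)
  have hu2 : u ^ 2 + ((a : ℤ) : O ⧸ 𝔮.asIdeal) = 0 := by
    have h1 := congrArg (Ideal.Quotient.mk 𝔮.asIdeal) htr
    simp only [map_add, map_mul, map_pow, map_intCast, map_zero, ← hu] at h1
    rw [hdvd b hQb, add_zero] at h1
    have h2 : u * (u ^ 2 + ((a : ℤ) : O ⧸ 𝔮.asIdeal)) = 0 := by rw [← h1]; ring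
    exact (mul_eq_zero.1 h2).resolve_left hu0
  have hfm : (X ^ 2 + C ((a : ℤ) : ZMod Q.natAbs) : (ZMod Q.natAbs)[X]).Monic := by monicity!
  have hfd : (X ^ 2 + C ((a : ℤ) : ZMod Q.natAbs) : (ZMod Q.natAbs)[X]).natDegree = 2 := by
    compute_degree!
  have hfi : Irreducible (X ^ 2 + C ((a : ℤ) : ZMod Q.natAbs) : (ZMod Q.natAbs)[X]) := by
    rw [hfm.irreducible_iff_roots_eq_zero_of_degree_le_three (by omega) (by omega),
      Multiset.eq_zero_iff_forall_notMem]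
    intro x hx
    rw [mem_roots hfm.ne_zero, IsRoot.def] at hx
    obtain ⟨z, rfl⟩ := ZMod.intCast_surjective x
    simp only [eval_add, eval_pow, eval_X, eval_C] at hx
    refine hns z ?_
    have h1 : (((z ^ 2 + a : ℤ)) : ZMod Q.natAbs) = 0 := by
      push_cast
      exact hx
    rw [ZMod.intCast_zmod_eq_zero_iff_dvd] at h1
    exact Int.natAbs_dvd.1 h1
  have hmin := minpoly.eq_of_irreducible_of_monic hfi (x := u) (by
    simp only [map_add, map_pow, aeval_X, aeval_C, map_intCast]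
    exact hu2) hfm
  have hdeg := minpoly.degree_dvd (K := ZMod Q.natAbs) (x := u)
    (Algebra.IsIntegral.isIntegral u)
  rw [← hmin, hfd] at hdeg
  obtain ⟨f, hf⟩ := hdeg
  have hcard : Nat.card (O ⧸ 𝔮.asIdeal) = Q.natAbs ^ (2 * f) := by
    rw [Module.natCard_eq_pow_finrank (K := ZMod Q.natAbs), Nat.card_zmod, hf]
  rw [Ideal.absNorm_apply, Submodule.cardQuot_apply]
  refine ⟨Q.natAbs ^ f, ?_⟩
  rw [← pow_add, ← two_mul]
  exact hcard

end ring

end NSGAux

open NSGAux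

/-- **NSG.** -/
theorem nsg : S_NSG := by
  intro L O _ _ _ _ _ _ _ a b θ hc _ S hS 𝔮 h𝔮 α hα hev
  haveI : Module.Finite ℤ O := IsIntegralClosure.finite ℤ ℚ L O
  haveI : Module.Free ℤ O := IsIntegralClosure.module_free ℤ ℚ L O
  obtain ⟨z₁, w, hw, rfl⟩ := IsFractionRing.div_surjective (A := O) α
  have hw0 : w ≠ 0 := nonZeroDivisors.ne_zero hw
  have hwL : algebraMap O L w ≠ 0 := by
    rw [Ne, map_eq_zero_iff _ (IsFractionRing.injective O L)]
    exact hw0
  have hz1 : z₁ ≠ 0 := by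
    rintro rfl
    simp at hα
  have hz0 : z₁ * w ≠ 0 := mul_ne_zero hz1 hw0
  have hxz : algebraMap O L z₁ / algebraMap O L w * algebraMap O L w ^ 2 =
      algebraMap O L (z₁ * w) := by
    rw [map_mul]
    field_simp
  have hI : (Ideal.span {z₁ * w} : Ideal O) ≠ 0 := by
    rw [Ne, Ideal.zero_eq_bot, Ideal.span_singleton_eq_bot]
    exact hz0
  have hsq : IsSquare (Ideal.absNorm (Ideal.span {z₁ * w} : Ideal O)) := by
    rw [← Ideal.finprod_heightOneSpectrum_factorization hI]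
    refine finprod_induction (fun I : Ideal O => IsSquare (Ideal.absNorm I)) ?_ ?_ ?_
    · rw [map_one]
      exact IsSquare.one
    · intro I J hI hJ
      rw [map_mul]
      exact hI.mul hJ
    · intro 𝔓
      unfold HeightOneSpectrum.maxPowDividing
      rw [map_pow]
      by_cases h : ∀ Q ∈ S, 𝔓 ≠ 𝔮 Q
      · exact (ev_even 𝔓 hz0 hxz (hev 𝔓 h)).isSquare_pow _
      · push Not at h
        obtain ⟨Q, hQ, rfl⟩ := h
        obtain ⟨h1, h2, h3⟩ := hS Q hQ
        exact (card_sq hc h1 h2 h3 (h𝔮 Q hQ).1 (h𝔮 Q hQ).2).pow _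
  rw [Ideal.absNorm_span_singleton] at hsq
  obtain ⟨k, hk⟩ := hsq
  obtain ⟨r, hr⟩ : ∃ r : ℚ, r = Algebra.norm ℚ (algebraMap O L w) := ⟨_, rfl⟩
  have hr0 : r ≠ 0 := by
    rw [hr]
    exact Algebra.norm_ne_zero_iff.2 hwL
  have hN : Algebra.norm ℚ (algebraMap O L z₁ / algebraMap O L w) * r ^ 2 =
      (Algebra.norm ℤ (z₁ * w) : ℚ) := by
    rw [← norm_int (L := L), ← hxz, map_mul, map_pow, hr]
  have hk' : (Algebra.norm ℤ (z₁ * w) : ℤ) = k * k ∨ (Algebra.norm ℤ (z₁ * w) : ℤ) = -(k * k) := by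
    have := Int.natAbs_eq (Algebra.norm ℤ (z₁ * w))
    rw [hk] at this
    push_cast at this
    exact this
  rcases hk' with h | h
  · left
    refine ⟨k / r, ?_⟩
    rw [h] at hN
    push_cast at hN
    field_simp
    linarith
  · right
    refine ⟨k / r, ?_⟩
    rw [h] at hN
    push_cast at hN
    field_simp
    linarith

end Pool.Agent.H458.AR
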